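import Pool.Agent.TorDeg.Fin0
import Pool.Agent.TorDeg.CALM

set_option autoImplicit false

/-!
# MP_ba8289_co, Q1: strictly f-degenerate transversals for toroidal graphs without intersecting
5-cycles

Every toroidal graph without intersecting 5-cycles has, for every cover and every `f` with values
in `{0, 1, 2}` whose sum over each fibre is at least 4, a strictly `f`-degenerate transversal.
The definitions are in `Pool.Agent.TorDeg.Defs`.
-/

namespace Pool.Agent.Results.MP_ba8289_co.ToroidalTransversals

open Pool.Agent.TorDeg

theorem result :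
    ∀ (V : Type) [Finite V] (G : SimpleGraph V), IsToroidal G → NoIntersectingFiveCycles G →
      ∀ (κ : ℕ) (H : SimpleGraph (V × Fin κ)), IsCover G H →
        ∀ f : V × Fin κ → ℕ, (∀ x, f x ≤ 2) → (∀ v, 4 ≤ ∑ q, f (v, q)) →
          ∃ R : V → Fin κ, StrictlyDegenerate H f (Set.range fun v => (v, R v)) :=
  main_of_calm (tCALM tNX tS4 tS5 tAV (tNS2 tNX (tF3 tNX) (tF5 tNX)))

end Pool.Agent.Results.MP_ba8289_co.ToroidalTransversals
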